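import Pool.Agent.Lib.MP_7ddd63_al.HMain

set_option autoImplicit false

namespace Pool.Agent.Results.MP_7ddd63_al.NoWreathNoRaag

open Pool.Agent.Lib.MP_7ddd63_al.H

/-- The diagram group of `⟨a, b, p | a = ap, a = app, b = pb, b = ppb⟩` (letters `0, 1, 2`) at the
base word `ab` contains no copy of the wreath product of two infinite cyclic groups and embeds in
no right-angled Artin group. -/
theorem result (R : Set (List (Fin 3) × List (Fin 3)))
    (hR : R = {([0], [0, 2]), ([0], [0, 2, 2]), ([1], [2, 1]), ([1], [2, 2, 1])}) :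
    (∀ g : ZwrZ →* DiagramGroup R [0, 1], ¬ Function.Injective g) ∧
    ∀ (V : Type) (Γ : SimpleGraph V) (f : DiagramGroup R [0, 1] →* Raag Γ),
      ¬ Function.Injective f := by
  subst hR
  exact ⟨no_wr', no_raag'⟩

end Pool.Agent.Results.MP_7ddd63_al.NoWreathNoRaag
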